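import Pool.Agent.Lib.MP_79abb3_an.Pair

/-!
Small-time global exact null controllability of the planar Navier-Stokes system with a flat no-slip
wall, for all horizontally affine initial data.
-/

set_option autoImplicit false

open MeasureTheory Set
open scoped ContDiff
open Pool.Agent.Lib.MP_79abb3_an

namespace Pool.Agent.Results.MP_79abb3_an.FlatWallAffine

/-- Let `Ω` be a bounded open subset of the upper half plane whose uncontrolled boundary `∂Ω ∖ Γ` lies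
on the line `y = 0`. For every `T > 0` and all `C¹` functions `g₀, h₀` with `g₀(0) = h₀(0) = 0` there
is a trajectory of the Navier-Stokes system (viscosity one, no-slip condition on `∂Ω ∖ Γ`) on `[0,T]`
which starts at `(x g₀(y) + h₀(y), -∫₀^y g₀)` and vanishes at time `T`. -/
theorem result {Ω Γ : Set (ℝ × ℝ)} (hΩ : IsOpen Ω) (hb : Bornology.IsBounded Ω)
    (hpos : ∀ q ∈ Ω, 0 < q.2) (hΓ : ∀ q ∈ frontier Ω \ Γ, q.2 = 0) {T : ℝ} (hT : 0 < T)
    {g₀ h₀ : ℝ → ℝ} (hg : ContDiff ℝ 1 g₀) (hh : ContDiff ℝ 1 h₀) (hg0 : g₀ 0 = 0)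
    (hh0 : h₀ 0 = 0) :
    ∃ u₁ u₂ p : ℝ × ℝ × ℝ → ℝ, IsTrajectory Ω Γ T u₁ u₂ p ∧
      (∀ q ∈ closure Ω, u₁ (0, q) = q.1 * g₀ q.2 + h₀ q.2 ∧ u₂ (0, q) = -∫ y in (0:ℝ)..q.2, g₀ y) ∧
      ∀ q ∈ closure Ω, u₁ (T, q) = 0 ∧ u₂ (T, q) = 0 :=
  main_theorem hΩ hb hpos hΓ hT hg hh hg0 hh0

end Pool.Agent.Results.MP_79abb3_an.FlatWallAffine
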