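import Pool.Agent.Lib.MP_79abb3_an.FW.MnC

set_option autoImplicit false

open Pool.Agent.Lib.MP_79abb3_an.FW in
/-- Small-time global exact null controllability of the planar Navier-Stokes equations over a flat
no-slip wall, for all initial data. -/
theorem Pool.Agent.Lib.MP_79abb3_an.Old.FlatWallAllData.result :
    ∀ Ω Γ : Set (ℝ × ℝ), Bornology.IsBounded Ω → (∀ q ∈ Ω, 0 < q.2) →
      (∀ q ∈ frontier Ω \ Γ, q.2 = 0) → ∀ T : ℝ, 0 < T → ∀ v₀ w₀ : ℝ × ℝ → ℝ,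
      ContDiff ℝ 4 v₀ → ContDiff ℝ 4 w₀ →
      (∀ q, fderiv ℝ v₀ q (1, 0) + fderiv ℝ w₀ q (0, 1) = 0) →
      (∀ y, v₀ (y, 0) = 0) → (∀ y, w₀ (y, 0) = 0) →
      ∃ v w : ℝ × ℝ × ℝ → ℝ, IsTraj2 Ω Γ T v w ∧
        (∀ q ∈ closure Ω, v (0, q) = v₀ q ∧ w (0, q) = w₀ q) ∧
        ∀ q ∈ closure Ω, v (T, q) = 0 ∧ w (T, q) = 0 :=
  fun _ _ hb hpos hΓ _ hT _ _ hv hw hd bv bw => main2 hb hpos hΓ hT hv hw hd bv bw
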