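import Pool.Agent.Lib.MP_79abb3_an.P25.Main3

set_option autoImplicit false

open Pool.Agent.Lib.MP_79abb3_an.P25 in
/-- Small-time global exact null controllability of the Navier-Stokes equations in `ℝ³` over a flat
no-slip wall, for all planar data (with a stretching part linear in `x`). -/
theorem Pool.Agent.Lib.MP_79abb3_an.Old.PlanarDataFlatWall.result :
    ∀ Ω Γ : Set (ℝ × ℝ × ℝ), Bornology.IsBounded Ω → (∀ q ∈ Ω, 0 < q.2.2) →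
      (∀ q ∈ frontier Ω \ Γ, q.2.2 = 0) → ∀ T : ℝ, 0 < T → ∀ v₀ w₀ h₀ : ℝ × ℝ → ℝ,
      ContDiff ℝ 4 v₀ → ContDiff ℝ 4 w₀ → ContDiff ℝ 3 h₀ → (∀ y, v₀ (y, 0) = 0) →
      (∀ y, w₀ (y, 0) = 0) → (∀ y, fderiv ℝ w₀ (y, 0) (0, 1) = 0) → (∀ y, h₀ (y, 0) = 0) →
      ∃ u₁ u₂ u₃ : ℝ × ℝ × ℝ × ℝ → ℝ, IsTrajectory Ω Γ T u₁ u₂ u₃ ∧
        (∀ q ∈ closure Ω,
          u₁ (0, q) = -q.1 * (fderiv ℝ v₀ q.2 (1, 0) + fderiv ℝ w₀ q.2 (0, 1)) + h₀ q.2 ∧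
          u₂ (0, q) = v₀ q.2 ∧ u₃ (0, q) = w₀ q.2) ∧
        ∀ q ∈ closure Ω, u₁ (T, q) = 0 ∧ u₂ (T, q) = 0 ∧ u₃ (T, q) = 0 :=
  fun _ _ hb hpos hΓ _ hT _ _ _ hv hw hh bv bw bw' bh => main3 hb hpos hΓ hT hv hw hh bv bw bw' bh
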