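import Pool.Agent.Lib.MP_79abb3_an.SC.L2J

set_option autoImplicit false

open Pool.Agent.Lib.MP_79abb3_an.SC in
/-- Small-time global exact null controllability of the planar Navier-Stokes equations with no-slip
walls, in smooth simply connected domains, for initial data of class `L²` of any size. -/
theorem Pool.Agent.Lib.MP_79abb3_an.Old.SimplyConnected.result :
    ∀ (F : ℂ → ℂ) (Ω Γ : Set ℂ), IsDom F Ω Γ → ∀ T : ℝ, 0 < T → ∀ u₀ : ℂ → ℂ,
      IsAdL (F '' Metric.ball 0 1) Ω Γ u₀ →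
      ∃ u : ℝ × ℂ → ℂ, IsLeray Ω Γ T u₀ u ∧ ∀ x ∈ closure Ω, u (T, x) = 0 :=
  fun _ _ _ hD _ hT _ hu => L2_main hD hT hu
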